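import Pool.Agent.H66.GUA.Targets

/-!
Module PR of the chapter A2/A3 of the project GU on `MP_c59857_nt`.
-/

set_option autoImplicit false

open Finset Filter Topology

namespace Pool.Agent.H26.GUA

open Pool.Agent.H91.LF (lz Bdd Mean sqw par)
open Pool.Agent.H24.T2 (Pset box cub)
open Pool.Agent.H31.DP
open Pool.Agent.H31.DPD
open Pool.Agent.H66.GUA

theorem ind_true {P : Prop} (h : P) : ind P = 1 := by simp [ind, h]

theorem ind_false {P : Prop} (h : ¬ P) : ind P = 0 := by simp [ind, h]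

theorem sI_lin {d : ℕ} (Q p : ℤ) (u c : Fin d → ℤ) (J : Finset (Fin d)) :
    sI (fun i => Q * u i + p * c i) J = Q * sI u J + p * sI c J := by
  simp only [sI, Finset.sum_add_distrib, Finset.mul_sum]

theorem mem_IC {d : ℕ} (M : ℕ) (s : Fin d → ℤ) (y : ℤ) :
    y ∈ IC M s ↔ (1 ≤ y ∧ y ≤ (M : ℤ)) ∧ ∀ I : Finset (Fin d), 1 ≤ y + sI s I ∧ y + sI s I ≤ M := by
  simp [IC]

theorem pf_PR (hCC : T_CC) : T_PR := by
  intro d l h p B M Q s₀ u c hB
  set z : Fin d → ℤ := fun i => Q * u i + p * c i with hz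
  have hv : ∀ J, sI z J = Q * sI u J + p * sI c J := fun J => sI_lin Q p u c J
  have hnone : ∀ (y : ℤ) (J : Finset (Fin d)),
      GG M B Q s₀ u (J, (none : Option (Fin l))) (y + p * vv h c (J, none)) =
        ind ((1 ≤ y + sI z J ∧ y + sI z J ≤ M) ∧
          (1 ≤ y + s₀ + sI z J ∧ y + s₀ + sI z J ≤ M)) := by
    intro y J
    have e1 : y + p * (sI c J + 0) + Q * sI u J = y + sI z J := by rw [hv]; ring
    have e2 : y + sI z J + s₀ = y + s₀ + sI z J := by ring
    simp only [GG, vv]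
    rw [e1, e2]
  have hsome : ∀ (y : ℤ) (J : Finset (Fin d)) (i : Fin l),
      GG M B Q s₀ u (J, some i) (y + p * vv h c (J, some i)) =
        ind (1 ≤ y + sI z J + p * h i ∧ y + sI z J + p * h i ≤ (M : ℤ) + B) *
          (lz (y + sI z J + p * h i) * lz (y + s₀ + sI z J + p * h i)) := by
    intro y J i
    have e1 : y + p * (sI c J + (h i : ℤ)) + Q * sI u J = y + sI z J + p * h i := by
      rw [hv]; ring
    have e2 : y + sI z J + p * h i + s₀ = y + s₀ + sI z J + p * h i := by ring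
    simp only [GG, vv]
    rw [e1, e2]
  have hsub : IC M (cns s₀ z) ⊆ Finset.Icc (1 : ℤ) M := Finset.filter_subset _ _
  unfold CAc
  rw [← Finset.sum_subset hsub (f := fun y => ∏ x : Finset (Fin d) × Option (Fin l),
        GG M B Q s₀ u x (y + p * vv h c x))]
  · refine Finset.sum_congr rfl ?_
    intro y hy
    obtain ⟨hy1, hy2⟩ := (hCC d l h p M s₀ z y).1.1 hy
    rw [mem_IC] at hy1 hy2
    rw [(hCC d l h p M s₀ z y).2, Fintype.prod_prod_type]
    unfold GC
    rw [← Finset.prod_mul_distrib]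
    refine Finset.prod_congr rfl ?_
    intro J _
    rw [Fintype.prod_option, hnone, ind_true ⟨hy1.2 J, hy2.2 J⟩, one_mul]
    unfold FF
    rw [← Finset.prod_mul_distrib]
    refine Finset.prod_congr rfl ?_
    intro i _
    rw [hsome]
    have hb : ((p * h i : ℕ) : ℤ) ≤ (B : ℤ) := by exact_mod_cast hB i
    push_cast at hb
    have h0 : (0 : ℤ) ≤ (p : ℤ) * (h i : ℤ) := by positivity
    rw [ind_true ⟨by linarith [(hy1.2 J).1], by linarith [(hy1.2 J).2]⟩, one_mul]
  · intro y hy hny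
    have : ∃ J : Finset (Fin d), ¬ ((1 ≤ y + sI z J ∧ y + sI z J ≤ (M : ℤ)) ∧
          (1 ≤ y + s₀ + sI z J ∧ y + s₀ + sI z J ≤ (M : ℤ))) := by
      by_contra hcon
      push Not at hcon
      apply hny
      rw [(hCC d l h p M s₀ z y).1, mem_IC, mem_IC]
      rw [Finset.mem_Icc] at hy
      have h0 := (hcon ∅).2
      simp only [sI, Finset.sum_empty, add_zero] at h0
      exact ⟨⟨hy, fun J => (hcon J).1⟩, ⟨h0, fun J => (hcon J).2⟩⟩
    obtain ⟨J, hJ⟩ := this
    refine Finset.prod_eq_zero (Finset.mem_univ (J, (none : Option (Fin l)))) ?_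
    rw [hnone, ind_false hJ]

end Pool.Agent.H26.GUA
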